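import Pool.Agent.Q267.DegForcing

/-!
# A graph `G` for which `D(G)` is infinite
-/

namespace Pool.Agent.Results.MP_a83c81_co.InfiniteD

open Pool.Agent.Q267.DegForcing

/-- There is a graph `G` such that `D(G)` contains infinitely many pairwise non-isomorphic
graphs. -/
theorem result : ∃ G : Gr, ∃ F : ℕ → Gr, (∀ i, InD G (F i)) ∧
    ∀ i j, i ≠ j → IsEmpty ((F i).2 ≃g (F j).2) := by
  obtain ⟨F, h1, h2⟩ := infinite_family
  refine ⟨toGr G0, F, h1, ?_⟩
  intro i j hij
  constructor
  intro e
  have hc : (F i).1 = (F j).1 := by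
    have := Fintype.card_congr e.toEquiv
    rwa [Fintype.card_fin, Fintype.card_fin] at this
  rcases Nat.lt_or_gt_of_ne hij with h | h
  · have := h2 i j h
    omega
  · have := h2 j i h
    omega

end Pool.Agent.Results.MP_a83c81_co.InfiniteD
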